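import Pool.Agent.H94.KP3

set_option autoImplicit false

namespace Pool.Agent.Results.MP_23ded2_an.NotCompact
open Filter Topology Pool.Agent.H94.KP

theorem result : Main (lp (fun _ : ℕ => ℝ) 2) (fun x n => x n) := main4

end Pool.Agent.Results.MP_23ded2_an.NotCompact
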